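import Mathlib
import Pool.Agent.W765.Hb9

/-! # Littlewood's problem along `b^j β` for `α` with long runs of a recurrence (abstract part) -/

set_option autoImplicit false

open MeasureTheory Filter Topology Set TopologicalSpace

namespace Pool.Agent.K6.H59.PR

open Pool.Agent.W765.Hb Pool.Agent.H705R2

variable {ι : Type*}

/-- denominators along a filter which satisfy a recurrence with trace `t` in both directions -/
structure Dat (t : ℤ) (C α : ℝ) (F : Filter ι) (s s' : ι → ι) (q : ι → ℕ) : Prop where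
  ts : Tendsto s F F
  ts' : Tendsto s' F F
  rc : ∀ᶠ p in F, (q (s (s p)) : ℤ) = t * q (s p) - q p
  inv : ∀ᶠ p in F, s (s' p) = p
  top : Tendsto q F atTop
  le : ∀ᶠ p in F, (q p : ℝ) * |(q p : ℝ) * α - round ((q p : ℝ) * α)| ≤ C

/-- resonance -/
def Reso (F : Filter ι) (q : ι → ℕ) (β : ℝ) : Prop :=
  ∃ d : ℕ, 0 < d ∧ Tendsto (fun p => ‖((d * (q p * β) : ℝ) : Circ)‖) F (𝓝 0)

/-- the points -/
noncomputable def pt (s : ι → ι) (q : ι → ℕ) (β : ℝ) (p : ι) : T2 :=
  ![((q (s p) * β : ℝ) : Circ), ((q p * β : ℝ) : Circ)]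

lemma Dat.aut_pt {t : ℤ} {C α : ℝ} {F : Filter ι} {s s' : ι → ι} {q : ι → ℕ}
    (D : Dat t C α F s s' q) (β : ℝ) : ∀ᶠ p in F, aut t (pt s q β p) = pt s q β (s p) := by
  filter_upwards [D.rc] with p hp
  rw [aut_apply]
  ext i
  fin_cases i
  · simp only [pt, Fin.zero_eta, Matrix.cons_val_zero, Matrix.cons_val_one]
    rw [← AddCircle.coe_zsmul, ← AddCircle.coe_sub]
    congr 1
    have h' : (q (s (s p)) : ℝ) = t * q (s p) - q p := by exact_mod_cast hp
    simp only [zsmul_eq_mul]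
    rw [h']; ring
  · simp [pt]

/-- the cluster set -/
def KK (F : Filter ι) (s : ι → ι) (q : ι → ℕ) (β : ℝ) : Set T2 :=
  {v | MapClusterPt v F (pt s q β)}

lemma isClosed_KK (F : Filter ι) (s : ι → ι) (q : ι → ℕ) (β : ℝ) : IsClosed (KK F s q β) :=
  isClosed_setOfPred_clusterPt

lemma Dat.inv_K {t : ℤ} {C α : ℝ} {F : Filter ι} {s s' : ι → ι} {q : ι → ℕ}
    (D : Dat t C α F s s' q) (β : ℝ) {v : T2} (hv : v ∈ KK F s q β) : aut t v ∈ KK F s q β := by
  have h1 : MapClusterPt (aut t v) F (aut t ∘ pt s q β) :=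
    MapClusterPt.continuousAt_comp (continuous_aut t).continuousAt hv
  have h2 : (aut t ∘ pt s q β) =ᶠ[F] (pt s q β ∘ s) := D.aut_pt β
  have h3 : MapClusterPt (aut t v) F (pt s q β ∘ s) := by
    rw [mapClusterPt_def] at h1 ⊢
    rwa [← Filter.map_congr h2]
  exact h3.of_comp D.ts

lemma Dat.inv_K_symm {t : ℤ} {C α : ℝ} {F : Filter ι} {s s' : ι → ι} {q : ι → ℕ}
    (D : Dat t C α F s s' q) (β : ℝ) {v : T2} (hv : v ∈ KK F s q β) :
    (aut t).symm v ∈ KK F s q β := by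
  have h1 : MapClusterPt ((aut t).symm v) F ((aut t).symm ∘ pt s q β) :=
    MapClusterPt.continuousAt_comp (continuous_aut_symm t).continuousAt hv
  have h2 : ((aut t).symm ∘ pt s q β) =ᶠ[F] (pt s q β ∘ s') := by
    filter_upwards [D.ts'.eventually (D.aut_pt β), D.inv] with p hp hp2
    simp only [Function.comp]
    rw [AddEquiv.symm_apply_eq, hp, hp2]
  have h3 : MapClusterPt ((aut t).symm v) F (pt s q β ∘ s') := by
    rw [mapClusterPt_def] at h1 ⊢
    rwa [← Filter.map_congr h2]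
  exact h3.of_comp D.ts'

/-- if the cluster set is finite, then a multiple of the points tends to zero -/
lemma Dat.reso_of_finite {t : ℤ} {lam : ℝ} (E : Eig t lam) {C α : ℝ} {F : Filter ι}
    {s s' : ι → ι} {q : ι → ℕ} (D : Dat t C α F s s' q) (β : ℝ) (hfin : (KK F s q β).Finite) :
    Reso F q β := by
  have htor : ∀ y ∈ KK F s q β, IsOfFinAddOrder y := by
    intro y hy
    by_contra hcon
    exact infinite_of_inv (hyperb E) (fun z hz => D.inv_K β hz) hy hcon hfin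
  obtain ⟨d, hd, hdy⟩ : ∃ d : ℕ, 0 < d ∧ ∀ y ∈ KK F s q β, d • y = 0 := by
    refine ⟨∏ y ∈ hfin.toFinset, addOrderOf y, ?_, ?_⟩
    · refine Finset.prod_pos fun y hy => ?_
      exact (htor y (hfin.mem_toFinset.1 hy)).addOrderOf_pos
    · intro y hy
      rw [← addOrderOf_dvd_iff_nsmul_eq_zero]
      exact Finset.dvd_prod_of_mem _ (hfin.mem_toFinset.2 hy)
  have hlim : Tendsto (fun p => d • pt s q β p) F (𝓝 0) := by
    rw [tendsto_iff_ultrafilter]
    intro g hg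
    obtain ⟨y, -, hy⟩ := isCompact_univ.ultrafilter_le_nhds (g.map (pt s q β)) (by simp)
    have hy' : Tendsto (pt s q β) g (𝓝 y) := hy
    have hyl : y ∈ KK F s q β := mapClusterPt_iff_ultrafilter.2 ⟨g, hg, hy'⟩
    have h1 := ((continuous_nsmul d).tendsto y).comp hy'
    rw [hdy y hyl] at h1
    exact h1
  refine ⟨d, hd, ?_⟩
  have h2 := (((continuous_apply (1 : Fin 2)).tendsto (0 : T2)).comp hlim).norm
  rw [Pi.zero_apply, norm_zero] at h2
  refine h2.congr fun p => ?_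
  simp only [Function.comp, Pi.smul_apply, pt, Matrix.cons_val_one, Matrix.cons_val_zero]
  rw [← AddCircle.coe_nsmul]
  congr 2
  simp only [nsmul_eq_mul]

lemma frequently_of_K {F : Filter ι} {s : ι → ι} {q : ι → ℕ} {β : ℝ} {v : T2}
    (hv : v ∈ KK F s q β) {U : Set T2} (hU : IsOpen U) {g : T2 → T2} (hg : Continuous g)
    (hgv : g v ∈ U) : ∃ᶠ p in F, g (pt s q β p) ∈ U := by
  have : ∀ᶠ z in 𝓝 v, g z ∈ U := hg.continuousAt (hU.mem_nhds hgv)
  exact MapClusterPt.frequently hv this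

/-- arithmetic -/
lemma Dat.freq {t : ℤ} {C α : ℝ} {F : Filter ι} {s s' : ι → ι} {q : ι → ℕ}
    (D : Dat t C α F s s' q) (hC : 0 ≤ C) {z γ : ℝ}
    {d : ℕ} (hd : 0 < d) {η ε : ℝ} (hη : (d : ℝ) ^ 2 * C * η < ε)
    (h : ∃ᶠ p in F, ‖((d * (q p * z) - γ : ℝ) : Circ)‖ < η) :
    ∃ᶠ q : ℕ in atTop, (q : ℝ) * |q * α - round (q * α)|
      * |(q * z - γ) - round (q * z - γ)| < ε := by
  have hqlim : Tendsto (fun p => d * q p) F atTop := by
    rw [tendsto_atTop]
    intro N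
    filter_upwards [D.top.eventually_ge_atTop N] with p hp
    nlinarith
  refine hqlim.frequently ((h.and_eventually D.le).mono fun p hp => ?_)
  obtain ⟨hp, hle⟩ := hp
  set q : ℕ := q p with hq
  have h1 : |((d * q : ℕ) : ℝ) * α - round (((d * q : ℕ) : ℝ) * α)| ≤
      d * |(q : ℝ) * α - round ((q : ℝ) * α)| := by
    refine (round_le _ (d * round ((q : ℝ) * α))).trans (le_of_eq ?_)
    push_cast
    rw [show (d : ℝ) * q * α - d * (round ((q : ℝ) * α) : ℝ) =
      d * (q * α - round ((q : ℝ) * α)) by ring,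
      abs_mul, abs_of_nonneg (Nat.cast_nonneg d : (0 : ℝ) ≤ d)]
  have h2 : |(((d * q : ℕ) : ℝ) * z - γ) - round (((d * q : ℕ) : ℝ) * z - γ)| < η := by
    rw [← UnitAddCircle.norm_eq]
    have : ((d * q : ℕ) : ℝ) * z - γ = d * (q * z) - γ := by push_cast; ring
    rw [this]; exact hp
  have h3 : 0 ≤ |(((d * q : ℕ) : ℝ) * z - γ) - round (((d * q : ℕ) : ℝ) * z - γ)| := abs_nonneg _
  have h4 : ((d * q : ℕ) : ℝ) * |((d * q : ℕ) : ℝ) * α - round (((d * q : ℕ) : ℝ) * α)| ≤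
      (d : ℝ) ^ 2 * C := by
    calc ((d * q : ℕ) : ℝ) * |((d * q : ℕ) : ℝ) * α - round (((d * q : ℕ) : ℝ) * α)|
        ≤ ((d * q : ℕ) : ℝ) * (d * |(q : ℝ) * α - round ((q : ℝ) * α)|) := by gcongr
      _ = (d : ℝ) ^ 2 * (q * |(q : ℝ) * α - round ((q : ℝ) * α)|) := by push_cast; ring
      _ ≤ (d : ℝ) ^ 2 * C := by gcongr
  calc _ ≤ (d : ℝ) ^ 2 * C * η := by
        refine mul_le_mul h4 h2.le h3 (by positivity)
    _ < ε := hη

/-- the resonant case -/
lemma Dat.of_reso {t : ℤ} {C α : ℝ} {F : Filter ι} [F.NeBot] {s s' : ι → ι} {q : ι → ℕ}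
    (D : Dat t C α F s s' q) (hC : 0 ≤ C) {β ε : ℝ} (hε : 0 < ε) (h : Reso F q β) (b : ℕ) :
    ∃ᶠ q : ℕ in atTop, (q : ℝ) * |q * α - round (q * α)|
      * |(q * (b * β) - 0) - round (q * (b * β) - 0)| < ε := by
  obtain ⟨d, hd, hlim⟩ := h
  have hη' : 0 < ε / ((d : ℝ) ^ 2 * C + 1) := by positivity
  refine D.freq hC hd (η := ε / ((d : ℝ) ^ 2 * C + 1)) ?_ ?_
  · rw [mul_div_assoc', div_lt_iff₀ (by positivity)]
    nlinarith
  · have h1 : Tendsto (fun p => (b : ℝ) * ‖((d * (q p * β) : ℝ) : Circ)‖) F (𝓝 0) := by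
      simpa using hlim.const_mul (b : ℝ)
    refine (h1.eventually_lt_const hη').frequently.mono fun p hp => ?_
    refine lt_of_le_of_lt ?_ hp
    have h2 : ((d * (q p * (b * β)) - 0 : ℝ) : Circ) = b • ((d * (q p * β) : ℝ) : Circ) := by
      rw [← AddCircle.coe_nsmul]
      congr 1
      simp only [nsmul_eq_mul]
      ring
    rw [h2]
    exact norm_nsmul_le

/-- the open sets -/
def US (K : ℕ) (s : Circ) : Set T2 := {z : T2 | ‖z 1 - s‖ < 1 / ((K : ℝ) + 1)}

lemma isOpen_US (K : ℕ) (s : Circ) : IsOpen (US K s) :=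
  isOpen_lt (((continuous_apply (1 : Fin 2)).sub continuous_const).norm) continuous_const

lemma US_nonempty (K : ℕ) (s : Circ) : (US K s).Nonempty :=
  ⟨![0, s], by
    simp only [US, mem_ofPred_eq, Matrix.cons_val_one, Matrix.cons_val_zero, sub_self, norm_zero]
    positivity⟩

open Classical in
/-- uniform theorem for finitely many open sets -/
theorem uniform_fin {t : ℤ} {lam : ℝ} (E : Eig t lam) {b : ℕ} (hb : 2 ≤ b) {κ : Type*}
    (S : Finset κ) (U : κ → Set T2) (hU : ∀ k, IsOpen (U k)) (hUne : ∀ k, (U k).Nonempty) {δ : ℝ}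
    (hδ : 0 < δ) :
    ∃ M : ℕ, ∀ K : Set T2, IsClosed K → (∀ x ∈ K, aut t x ∈ K) → (∀ x ∈ K, (aut t).symm x ∈ K) →
      K.Infinite → ∀ s n : ℕ, M ≤ n →
      (((Finset.range n).filter (fun i => ∃ k ∈ S, ∀ x ∈ K, b ^ (s + i) • x ∉ U k)).card : ℝ)
        ≤ δ * n := by
  have hδ' : 0 < δ / (S.card + 1) := by positivity
  choose M hM using fun k : κ => uniform_infinite torT2 (hyperb E) hb (theta E hb) (hU k) (hUne k) hδ'
  refine ⟨S.sup M, fun K hK hA hB hinf s n hn => ?_⟩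
  have hsub : (Finset.range n).filter (fun i => ∃ k ∈ S, ∀ x ∈ K, b ^ (s + i) • x ∉ U k) ⊆
      S.biUnion fun k => (Finset.range n).filter (fun i => ∀ x ∈ K, b ^ (s + i) • x ∉ U k) := by
    intro i hi
    rw [Finset.mem_filter] at hi
    obtain ⟨k, hk1, hk2⟩ := hi.2
    rw [Finset.mem_biUnion]
    exact ⟨k, hk1, Finset.mem_filter.2 ⟨hi.1, hk2⟩⟩
  have h1 : (((Finset.range n).filter
      (fun i => ∃ k ∈ S, ∀ x ∈ K, b ^ (s + i) • x ∉ U k)).card : ℝ) ≤
      ∑ k ∈ S, (((Finset.range n).filter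
        (fun i => ∀ x ∈ K, b ^ (s + i) • x ∉ U k)).card : ℝ) := by
    have := (Finset.card_le_card hsub).trans Finset.card_biUnion_le
    exact_mod_cast this
  refine h1.trans ?_
  have h2 : ∑ k ∈ S, (((Finset.range n).filter
        (fun i => ∀ x ∈ K, b ^ (s + i) • x ∉ U k)).card : ℝ) ≤
      ∑ _k ∈ S, δ / (S.card + 1) * n :=
    Finset.sum_le_sum fun k hk => hM k K hK hA hB hinf s n ((Finset.le_sup (f := M) hk).trans hn)
  refine h2.trans ?_
  rw [Finset.sum_const, nsmul_eq_mul]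
  have h3 : (S.card : ℝ) * (δ / (S.card + 1) * n) = (S.card / (S.card + 1)) * (δ * n) := by
    field_simp
  rw [h3]
  have h4 : (S.card : ℝ) / (S.card + 1) ≤ 1 := by
    rw [div_le_one (by positivity)]; linarith
  have h5 : 0 ≤ δ * n := by positivity
  nlinarith

open Classical in
/-- the uniform density statement -/
theorem uniform {t : ℤ} {lam : ℝ} (E : Eig t lam) {C : ℝ} (hC : 0 ≤ C) {b : ℕ} (hb : 2 ≤ b)
    {ε δ : ℝ} (hε : 0 < ε) (hδ : 0 < δ) :
    ∃ N₀ : ℕ, ∀ (α : ℝ) (F : Filter ℕ) (s s' q : ℕ → ℕ), F.NeBot → Dat t C α F s s' q →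
      ∀ β : ℝ, ∀ N ≥ N₀, ∀ T : ℕ,
      (((Finset.range N).filter (fun i : ℕ =>
        ¬ ∀ γ : ℝ, (γ = 0 ∨ ¬ Reso F q β) → ∃ᶠ q : ℕ in atTop, (q : ℝ) * |q * α - round (q * α)|
            * |(q * ((b : ℝ) ^ (T + i) * β) - γ) - round (q * ((b : ℝ) ^ (T + i) * β) - γ)| < ε)).card
              : ℝ) ≤ δ * N := by
  obtain ⟨K, hK⟩ := exists_K (C := C) hC hε
  have hfinT : {s : Circ | (K + 1) • s = 0}.Finite := AddCircle.finite_torsion (1 : ℝ) (Nat.succ_pos K)
  obtain ⟨M, hM⟩ := uniform_fin E hb hfinT.toFinset (US K) (isOpen_US K) (US_nonempty K) hδ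
  refine ⟨M, fun α F s s' q hne D β N hN T => ?_⟩
  by_cases hres : Reso F q β
  · have hempty : ((Finset.range N).filter (fun i : ℕ =>
        ¬ ∀ γ : ℝ, (γ = 0 ∨ ¬ Reso F q β) → ∃ᶠ q : ℕ in atTop, (q : ℝ) * |q * α - round (q * α)|
            * |(q * ((b : ℝ) ^ (T + i) * β) - γ) - round (q * ((b : ℝ) ^ (T + i) * β) - γ)| < ε)) = ∅ := by
      rw [Finset.filter_eq_empty_iff]
      intro i _ hcon
      apply hcon
      intro γ hγ
      rcases hγ with rfl | hγ
      · have := D.of_reso hC hε hres (b ^ (T + i))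
        push_cast at this
        exact this
      · exact absurd hres hγ
    rw [hempty]
    simp only [Finset.card_empty, Nat.cast_zero]
    positivity
  · have hinf : (KK F s q β).Infinite := fun hfin => hres (D.reso_of_finite E β hfin)
    refine le_trans ?_ (hM (KK F s q β) (isClosed_KK F s q β) (fun z hz => D.inv_K β hz)
      (fun z hz => D.inv_K_symm β hz) hinf T N hN)
    have hsub : ((Finset.range N).filter (fun i : ℕ =>
        ¬ ∀ γ : ℝ, (γ = 0 ∨ ¬ Reso F q β) → ∃ᶠ q : ℕ in atTop, (q : ℝ) * |q * α - round (q * α)|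
            * |(q * ((b : ℝ) ^ (T + i) * β) - γ) - round (q * ((b : ℝ) ^ (T + i) * β) - γ)| < ε)) ⊆
        ((Finset.range N).filter
          (fun i => ∃ k ∈ hfinT.toFinset, ∀ x ∈ KK F s q β, b ^ (T + i) • x ∉ US K k)) := by
      intro i hi
      rw [Finset.mem_filter] at hi ⊢
      refine ⟨hi.1, ?_⟩
      by_contra hcon
      push Not at hcon
      refine hi.2 fun γ _ => ?_
      obtain ⟨u, hu, hdu⟩ := circ_near (Nat.succ_pos K) (γ : Circ)
      obtain ⟨x, hx, hxU⟩ := hcon u (hfinT.mem_toFinset.2 hu)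
      refine D.freq hC one_pos (η := 2 / ((K : ℝ) + 1)) (by simpa using hK) ?_
      refine (frequently_of_K hx (isOpen_US K u) (continuous_nsmul (b ^ (T + i))) hxU).mono
        fun p hp => ?_
      simp only [US, mem_ofPred_eq, Pi.smul_apply, pt, Matrix.cons_val_one, Matrix.cons_val_zero] at hp
      have e1 : ((((1 : ℕ) : ℝ) * (q p * ((b : ℝ) ^ (T + i) * β)) - γ : ℝ) : Circ) =
          (b ^ (T + i) • ((q p * β : ℝ) : Circ) - u) + (u - (γ : Circ)) := by
        rw [← AddCircle.coe_nsmul, AddCircle.coe_sub]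
        rw [sub_add_sub_cancel]
        congr 2
        simp only [nsmul_eq_mul]
        push_cast
        ring
      rw [e1]
      rw [dist_comm, dist_eq_norm] at hdu
      push_cast at hdu
      calc _ ≤ ‖b ^ (T + i) • ((q p * β : ℝ) : Circ) - u‖ + ‖u - (γ : Circ)‖ := norm_add_le _ _
        _ < 1 / ((K : ℝ) + 1) + 1 / ((K : ℝ) + 1) := add_lt_add_of_lt_of_le hp hdu
        _ = 2 / ((K : ℝ) + 1) := by ring
    exact_mod_cast Finset.card_le_card hsub

end Pool.Agent.K6.H59.PR
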