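import Mathlib
import Pool.Agent.K6.H59.PR.Core
import Pool.Agent.H380R2.CodeCF

/-! # Runs of a recurrence from periodic runs of partial quotients -/

set_option autoImplicit false

open MeasureTheory Filter Topology Set TopologicalSpace

namespace Pool.Agent.K6.H59.PR

open Pool.Agent.W765.Hb Pool.Agent.H705R2 Pool.Agent.H380R2.LC

/-- continuants -/
def EE (a : ℕ → ℤ) : ℕ → ℤ
  | 0 => 0
  | 1 => 1
  | (m + 2) => a (m + 1) * EE a (m + 1) + EE a m

/-- continuants -/
def FF (a : ℕ → ℤ) : ℕ → ℤ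
  | 0 => 1
  | 1 => 0
  | (m + 2) => a (m + 1) * FF a (m + 1) + FF a m

lemma lin {x a : ℕ → ℤ} (h : ∀ k, x (k + 2) = a (k + 1) * x (k + 1) + x k) (k m : ℕ) :
    x (k + m) = EE (fun i => a (k + i)) m * x (k + 1) + FF (fun i => a (k + i)) m * x k ∧
    x (k + m + 1) = EE (fun i => a (k + i)) (m + 1) * x (k + 1) +
      FF (fun i => a (k + i)) (m + 1) * x k := by
  induction m with
  | zero => simp [EE, FF]
  | succ m ih =>
    refine ⟨ih.2, ?_⟩
    have h1 := h (k + m)
    rw [show k + (m + 1) + 1 = k + m + 2 by ring, h1, ih.1, ih.2]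
    change _ = (a (k + (m + 1)) * EE (fun i => a (k + i)) (m + 1) + EE (fun i => a (k + i)) m) * _ +
      (a (k + (m + 1)) * FF (fun i => a (k + i)) (m + 1) + FF (fun i => a (k + i)) m) * _
    rw [show k + (m + 1) = k + m + 1 by ring]
    ring

lemma det_EF (a : ℕ → ℤ) (m : ℕ) : EE a (m + 1) * FF a m - EE a m * FF a (m + 1) = (-1) ^ m := by
  induction m with
  | zero => simp [EE, FF]
  | succ m ih =>
    change (a (m + 1) * EE a (m + 1) + EE a m) * FF a (m + 1) -
      EE a (m + 1) * (a (m + 1) * FF a (m + 1) + FF a m) = _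
    rw [pow_succ, ← ih]
    ring

lemma EF_congr {a a' : ℕ → ℤ} {P : ℕ} (h : ∀ i, 1 ≤ i → i ≤ P → a i = a' i) (m : ℕ) :
    (m ≤ P → EE a m = EE a' m ∧ FF a m = FF a' m) ∧
      (m ≤ P → EE a (m + 1) = EE a' (m + 1) ∧ FF a (m + 1) = FF a' (m + 1)) := by
  induction m with
  | zero => simp [EE, FF]
  | succ m ih =>
    refine ⟨fun hm => ih.2 (by omega), fun hm => ?_⟩
    have h1 := ih.1 (by omega)
    have h2 := ih.2 (by omega)
    have h3 := h (m + 1) (by omega) (by omega)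
    constructor
    · change a (m + 1) * EE a (m + 1) + EE a m = a' (m + 1) * EE a' (m + 1) + EE a' m
      rw [h1.1, h2.1, h3]
    · change a (m + 1) * FF a (m + 1) + FF a m = a' (m + 1) * FF a' (m + 1) + FF a' m
      rw [h1.2, h2.2, h3]

/-- a periodic run gives a recurrence of order two -/
lemma recur_of_period {x a : ℕ → ℤ} (h : ∀ k, x (k + 2) = a (k + 1) * x (k + 1) + x k) {P : ℕ}
    (hP : Even P) (k : ℕ) (hper : ∀ i, 1 ≤ i → i ≤ P → a (k + P + i) = a (k + i)) :
    x (k + P + P) = (EE (fun i => a (k + i)) (P + 1) + FF (fun i => a (k + i)) P) * x (k + P) -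
      x k := by
  set e := EE (fun i => a (k + i)) (P + 1) with he
  set f := FF (fun i => a (k + i)) (P + 1) with hf
  set e' := EE (fun i => a (k + i)) P with he'
  set f' := FF (fun i => a (k + i)) P with hf'
  have hdet : e * f' - e' * f = 1 := by
    have := det_EF (fun i => a (k + i)) P
    rw [hP.neg_one_pow] at this
    exact this
  have h1 : x (k + P) = e' * x (k + 1) + f' * x k ∧ x (k + P + 1) = e * x (k + 1) + f * x k :=
    lin h k P
  have h2 := lin h (k + P) P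
  have h3 := EF_congr (a := fun i => a (k + P + i)) (a' := fun i => a (k + i)) (P := P) hper P
  rw [(h3.1 le_rfl).1, (h3.1 le_rfl).2, (h3.2 le_rfl).1, (h3.2 le_rfl).2] at h2
  have h4 : x (k + P + P) = e' * x (k + P + 1) + f' * x (k + P) := h2.1
  rw [h4, h1.2, h1.1]
  linear_combination (-x k) * hdet

/-- `k` lies deep in a run of period `p` -/
def Deep (p : ℕ) (α : ℝ) (n k : ℕ) : Prop :=
  n ≤ k ∧ ∀ i, k ≤ i + n → i < k + n → pq α (i + p) = pq α i

/-- the filter of the positions deep in long runs of period `p` -/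
def RR (p : ℕ) (α : ℝ) : Filter ℕ := ⨅ n : ℕ, 𝓟 {k | Deep p α n k}

lemma Deep.mono {p : ℕ} {α : ℝ} {m n k : ℕ} (h : Deep p α n k) (hmn : m ≤ n) : Deep p α m k :=
  ⟨hmn.trans h.1, fun i h1 h2 => h.2 i (by omega) (by omega)⟩

lemma basisRR (p : ℕ) (α : ℝ) : (RR p α).HasBasis (fun _ => True) (fun n => {k | Deep p α n k}) := by
  refine hasBasis_iInf_principal ?_
  refine directed_of_isDirected_le fun m n hmn => ?_
  intro k hk
  exact Deep.mono hk hmn

lemma evRR {p : ℕ} {α : ℝ} {A : ℕ → Prop} (n : ℕ) (h : ∀ k, Deep p α n k → A k) :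
    ∀ᶠ k in RR p α, A k :=
  (basisRR p α).mem_iff.2 ⟨n, trivial, h⟩

lemma evRR_iff {p : ℕ} {α : ℝ} {A : ℕ → Prop} :
    (∀ᶠ k in RR p α, A k) ↔ ∃ n, ∀ k, Deep p α n k → A k := by
  refine (basisRR p α).mem_iff.trans ?_
  simp only [true_and]
  rfl

lemma Deep.add {p : ℕ} {α : ℝ} {m n k : ℕ} (h : Deep p α (n + m) k) : Deep p α n (k + m) :=
  ⟨by have := h.1; omega, fun i h1 h2 => h.2 i (by omega) (by omega)⟩

lemma Deep.sub {p : ℕ} {α : ℝ} {m n k : ℕ} (h : Deep p α (n + m) k) : Deep p α n (k - m) :=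
  ⟨by have := h.1; omega, fun i h1 h2 => h.2 i (by have := h.1; omega) (by have := h.1; omega)⟩

/-- trace of two periods -/
noncomputable def tr (p : ℕ) (α : ℝ) (k : ℕ) : ℤ :=
  EE (fun i => pq α (k + i)) (2 * p + 1) + FF (fun i => pq α (k + i)) (2 * p)

lemma Deep.per {p : ℕ} {α : ℝ} {k : ℕ} (h : Deep p α (3 * p + 1) k) (i : ℕ) (hi : i ≤ 2 * p) :
    pq α (k + 2 * p + i) = pq α (k + i) := by
  rw [← h.2 (k + i) (by omega) (by omega), ← h.2 (k + i + p) (by omega) (by omega)]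
  congr 1
  ring

lemma Deep.tr_add {p : ℕ} {α : ℝ} {k : ℕ} (h : Deep p α (3 * p + 1) k) :
    tr p α (k + 2 * p) = tr p α k := by
  have h3 := EF_congr (a := fun i => pq α (k + 2 * p + i)) (a' := fun i => pq α (k + i))
    (P := 2 * p) (fun i _ hi => h.per i hi) (2 * p)
  unfold tr
  rw [(h3.1 le_rfl).2, (h3.2 le_rfl).1]

lemma Deep.rc {p : ℕ} {α : ℝ} {k : ℕ} (h : Deep p α (3 * p + 1) k) :
    den α (k + 2 * p + 2 * p) = tr p α k * den α (k + 2 * p) - den α k :=
  recur_of_period (x := den α) (a := pq α) (fun _ => rfl) (even_two_mul p) k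
    (fun i _ hi => h.per i hi)

/-- arbitrarily long runs of period `p` of the partial quotients -/
def LongRuns (p : ℕ) (α : ℝ) : Prop :=
  ∀ n : ℕ, ∃ k : ℕ, n ≤ k ∧ ∀ i < n, pq α (k + i + p) = pq α (k + i)

lemma neBotRR {p : ℕ} {α : ℝ} (h : LongRuns p α) : (RR p α).NeBot := by
  refine (basisRR p α).neBot_iff.2 fun {n} _ => ?_
  obtain ⟨k, hk, hper⟩ := h (2 * n)
  refine ⟨k + n, by omega, fun i h1 h2 => ?_⟩
  have := hper (i - k) (by omega)
  rwa [show k + (i - k) = i by omega] at this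

lemma den_one_le {α : ℝ} (hα : Irrational α) (k : ℕ) : 1 ≤ den α (k + 1) := by
  induction k using Nat.strong_induction_on with
  | _ k ih =>
    match k with
    | 0 => exact le_refl _
    | 1 =>
      change 1 ≤ pq α 1 * 1 + 0
      have := pq_pos hα 0
      linarith
    | (k + 2) =>
      change 1 ≤ pq α (k + 2) * den α (k + 2) + den α (k + 1)
      have h1 := ih k (by omega)
      have h2 := ih (k + 1) (by omega)
      have h3 := pq_pos hα (k + 1)
      nlinarith

lemma den_mono {α : ℝ} (hα : Irrational α) : Monotone (den α) :=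
  monotone_nat_of_le_succ (fun k => (Q_mono1 (A := fun k => pq α (k + 1)) (Q := den α)
    (fun k => pq_pos hα k) rfl rfl (fun _ => rfl) k).2)

lemma le_den {α : ℝ} (hα : Irrational α) (k : ℕ) : (k : ℤ) ≤ den α (k + 1) ∧
    (k + 1 : ℤ) ≤ den α (k + 2) := by
  induction k with
  | zero => exact ⟨by simpa using (den_one_le hα 0).trans' zero_le_one, by simpa using den_one_le hα 1⟩
  | succ k ih =>
    refine ⟨by exact_mod_cast ih.2, ?_⟩
    change _ ≤ pq α (k + 2) * den α (k + 2) + den α (k + 1)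
    have h1 := pq_pos hα (k + 1)
    have h2 := den_one_le hα k
    have h3 := ih.2
    push_cast
    nlinarith

lemma two_den {α : ℝ} (hα : Irrational α) (k : ℕ) : 2 * den α k ≤ den α (k + 2) := by
  change _ ≤ pq α (k + 1) * den α (k + 1) + den α k
  have h1 := pq_pos hα k
  have h2 := den_mono hα (Nat.le_succ k)
  have h3 := den_nonneg hα k
  nlinarith

lemma den_le_pow {α : ℝ} (hα : Irrational α) {B : ℤ} (k : ℕ) :
    ∀ m : ℕ, (∀ i, 1 ≤ i → i < m → pq α (k + i) ≤ B) → (∀ i, k + 1 ≤ i → i ≤ k + m → 1 ≤ pq α i) →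
      1 ≤ k → pq α k ≤ B → 0 ≤ B → den α (k + m) ≤ (B + 1) ^ m * den α k := by
  intro m
  induction m with
  | zero => intro _ _ _ _ _; simp
  | succ m ih =>
    intro h1 h2 hk hB hB0
    have h3 := ih (fun i hi1 hi2 => h1 i hi1 (by omega)) (fun i hi1 hi2 => h2 i hi1 (by omega)) hk hB hB0
    have h4 : den α (k + m + 1) ≤ (B + 1) * den α (k + m) := by
      obtain ⟨l, hl⟩ : ∃ l, k + m = l + 1 := ⟨k + m - 1, by omega⟩
      rw [hl]
      change pq α (l + 1) * den α (l + 1) + den α l ≤ _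
      have h5 : pq α (l + 1) ≤ B := by
        rw [← hl]
        rcases Nat.eq_zero_or_pos m with rfl | hm
        · simpa using hB
        · exact h1 m hm (by omega)
      have h6 := den_mono hα (Nat.le_succ l)
      have h7 := den_nonneg hα (l + 1)
      have h8 : den α l ≤ den α (l + 1) := h6
      nlinarith
    have h9 : (B + 1) * den α (k + m) ≤ (B + 1) * ((B + 1) ^ m * den α k) :=
      mul_le_mul_of_nonneg_left h3 (by linarith)
    calc den α (k + (m + 1)) = den α (k + m + 1) := by rw [add_assoc]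
      _ ≤ _ := h4
      _ ≤ _ := h9
      _ = (B + 1) ^ (m + 1) * den α k := by ring

lemma den_round {α : ℝ} (hα : Irrational α) (k : ℕ) :
    (((den α k).toNat : ℕ) : ℝ) *
      |(((den α k).toNat : ℕ) : ℝ) * α - round ((((den α k).toNat : ℕ) : ℝ) * α)| ≤
      (den α k : ℝ) * |th α k| := by
  have h0 := den_nonneg hα k
  have h1 : (((den α k).toNat : ℕ) : ℝ) = (den α k : ℝ) := by
    have : (((den α k).toNat : ℕ) : ℤ) = den α k := Int.toNat_of_nonneg h0
    exact_mod_cast this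
  rw [h1]
  have h2 : (0 : ℝ) ≤ den α k := by exact_mod_cast h0
  refine mul_le_mul_of_nonneg_left ?_ h2
  exact round_le _ (num α k)

/-- the denominators -/
noncomputable def qq (α : ℝ) (k : ℕ) : ℕ := (den α k).toNat

lemma qq_cast {α : ℝ} (hα : Irrational α) (k : ℕ) : ((qq α k : ℕ) : ℤ) = den α k :=
  Int.toNat_of_nonneg (den_nonneg hα k)

/-- the positions with trace `t` -/
def RT (p : ℕ) (α : ℝ) (t : ℤ) : Filter ℕ := RR p α ⊓ 𝓟 {k | tr p α k = t}

lemma evRT {p : ℕ} {α : ℝ} {t : ℤ} {A : ℕ → Prop} (n : ℕ)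
    (h : ∀ k, Deep p α n k → tr p α k = t → A k) : ∀ᶠ k in RT p α t, A k := by
  rw [RT, eventually_inf_principal]
  exact evRR n h

lemma tend_top {p : ℕ} {α : ℝ} (hα : Irrational α) (t : ℤ) : Tendsto (qq α) (RT p α t) atTop := by
  rw [tendsto_atTop]
  intro N
  refine evRT (N + 1) fun k hk _ => ?_
  obtain ⟨l, hl⟩ : ∃ l, k = l + 1 := ⟨k - 1, by have := hk.1; omega⟩
  have h1 := (le_den hα l).1
  have h2 := hk.1
  rw [← hl, ← qq_cast hα] at h1
  omega

lemma dat {p : ℕ} {α : ℝ} (hα : Irrational α) (t : ℤ) :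
    Dat t 1 α (RT p α t) (fun k => k + 2 * p) (fun k => k - 2 * p) (qq α) where
  ts := by
    have hid : Tendsto (fun k => k + 2 * p) (RR p α) (RR p α) := by
      rw [(basisRR p α).tendsto_right_iff]
      intro n _
      exact evRR (n + 2 * p) fun k hk => hk.add
    refine tendsto_inf.2 ⟨hid.mono_left inf_le_left, ?_⟩
    rw [tendsto_principal]
    refine evRT (3 * p + 1) fun k hk ht => ?_
    exact hk.tr_add.trans ht
  ts' := by
    have hid : Tendsto (fun k => k - 2 * p) (RR p α) (RR p α) := by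
      rw [(basisRR p α).tendsto_right_iff]
      intro n _
      exact evRR (n + 2 * p) fun k hk => hk.sub
    refine tendsto_inf.2 ⟨hid.mono_left inf_le_left, ?_⟩
    rw [tendsto_principal]
    refine evRT (3 * p + 1 + 2 * p) fun k hk ht => ?_
    have h1 := hk.sub.tr_add
    have h2 : k - 2 * p + 2 * p = k := by have := hk.1; omega
    rw [h2] at h1
    exact h1.symm.trans ht
  rc := by
    refine evRT (3 * p + 1) fun k hk ht => ?_
    have := hk.rc
    rw [ht] at this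
    simp only [qq_cast hα]
    exact this
  inv := evRT (2 * p) fun k hk _ => by have := hk.1; omega
  top := tend_top hα t
  le := by
    refine Eventually.of_forall fun k => ?_
    refine (den_round hα _).trans ?_
    have h1 := den_mul_th hα k
    refine le_trans ?_ h1
    refine mul_le_mul_of_nonneg_right ?_ (abs_nonneg _)
    exact_mod_cast den_mono hα (Nat.le_succ _)

/-- the traces are bounded -/
lemma tr_bound {p : ℕ} (hp : 1 ≤ p) {α : ℝ} (hα : Irrational α) {B : ℤ}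
    {k₀ : ℕ} (hB : ∀ k, k₀ ≤ k → pq α k ≤ B) :
    ∀ᶠ k in RR p α, tr p α k ∈ Finset.Icc (3 : ℤ) ((B + 1) ^ (2 * p) + 1) := by
  refine evRR (3 * p + 1 + k₀) fun k hk => ?_
  have hk1 := hk.1
  have hrc := (hk.mono (m := 3 * p + 1) (by omega)).rc
  have hB0 : 1 ≤ B := by
    obtain ⟨l, hl⟩ : ∃ l, k = l + 1 := ⟨k - 1, by omega⟩
    have := pq_pos hα l
    rw [← hl] at this
    exact this.trans (hB k (by omega))
  have h0 : 1 ≤ den α k := by
    obtain ⟨l, hl⟩ : ∃ l, k = l + 1 := ⟨k - 1, by omega⟩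
    rw [hl]; exact den_one_le hα l
  have hQ1 : 1 ≤ den α (k + 2 * p) := h0.trans (den_mono hα (by omega))
  have h2Q : 2 * den α (k + 2 * p) ≤ den α (k + 2 * p + 2 * p) :=
    (two_den hα (k + 2 * p)).trans (den_mono hα (by omega))
  rw [Finset.mem_Icc]
  constructor
  · by_contra hcon
    have : tr p α k ≤ 2 := by omega
    nlinarith
  · have h1 := den_le_pow hα (B := B) (k + 2 * p) (2 * p) (fun i _ _ => hB _ (by omega))
      (fun i hi1 hi2 => by
        obtain ⟨l, hl⟩ : ∃ l, i = l + 1 := ⟨i - 1, by omega⟩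
        rw [hl]; exact pq_pos hα l) (by omega) (hB _ (by omega)) (by omega)
    have h2 : den α k ≤ den α (k + 2 * p) := den_mono hα (by omega)
    by_contra hcon
    push Not at hcon
    nlinarith

/-- resonance: a multiple of the `‖q_k β‖` tends to zero deep in the runs -/
def Resonant (p : ℕ) (α β : ℝ) : Prop :=
  ∃ d : ℕ, 1 ≤ d ∧ ∀ η : ℝ, 0 < η → ∃ n : ℕ, ∀ k : ℕ, n ≤ k →
    (∀ i : ℕ, k ≤ i + n → i < k + n → pq α (i + p) = pq α i) →
      |d * den α k * β - round (d * den α k * β)| < η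

lemma resonant_of {p : ℕ} {α β : ℝ} (hα : Irrational α) {S : Finset ℤ}
    (hS : ∀ᶠ k in RR p α, tr p α k ∈ S) (h : ∀ t ∈ S, Reso (RT p α t) (qq α) β) :
    Resonant p α β := by
  classical
  choose! d hd hlim using h
  refine ⟨∏ t ∈ S, d t, Finset.one_le_prod' fun t ht => hd t ht, fun η hη => ?_⟩
  have h1 : ∀ᶠ k in RR p α, ∀ t ∈ S, tr p α k = t →
      ‖(((∏ t ∈ S, d t : ℕ) * (qq α k * β) : ℝ) : Circ)‖ < η := by
    rw [Filter.eventually_all_finset]
    intro t ht
    obtain ⟨e, he⟩ : d t ∣ ∏ t ∈ S, d t := Finset.dvd_prod_of_mem d ht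
    have he0 : 0 < e := by
      rcases Nat.eq_zero_or_pos e with h0 | h0
      · rw [h0, mul_zero] at he
        have : 1 ≤ ∏ t ∈ S, d t := Finset.one_le_prod' fun t ht => hd t ht
        omega
      · exact h0
    have h2 : ∀ᶠ k in RT p α t, (e : ℝ) * ‖((d t * (qq α k * β) : ℝ) : Circ)‖ < η := by
      have h3 : Tendsto (fun k => (e : ℝ) * ‖((d t * (qq α k * β) : ℝ) : Circ)‖) (RT p α t) (𝓝 0) := by
        simpa using (hlim t ht).const_mul (e : ℝ)
      exact h3.eventually_lt_const hη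
    rw [RT, eventually_inf_principal] at h2
    filter_upwards [h2] with k hk hkt
    refine lt_of_le_of_lt ?_ (hk hkt)
    have h4 : (((∏ t ∈ S, d t : ℕ) * (qq α k * β) : ℝ) : Circ) =
        e • ((d t * (qq α k * β) : ℝ) : Circ) := by
      rw [← AddCircle.coe_nsmul, he]
      congr 1
      simp only [nsmul_eq_mul]
      push_cast
      ring
    rw [h4]
    exact norm_nsmul_le
  obtain ⟨n, hn⟩ := evRR_iff.1 (h1.and hS)
  refine ⟨n, fun k hk hper => ?_⟩
  obtain ⟨h2, h3⟩ := hn k ⟨hk, hper⟩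
  have h4 := h2 _ h3 rfl
  rw [UnitAddCircle.norm_eq] at h4
  have h5 : ((qq α k : ℕ) : ℝ) = den α k := by exact_mod_cast qq_cast hα k
  rw [h5, ← mul_assoc] at h4
  exact h4

/-- large partial quotients -/
lemma trivial_case {α : ℝ} (hα : Irrational α) {ε : ℝ} (hε : 0 < ε)
    (h : ∀ k₀ : ℕ, ∃ k, k₀ ≤ k ∧ 1 / ε < pq α k) (z γ : ℝ) :
    ∃ᶠ q : ℕ in atTop, (q : ℝ) * |q * α - round (q * α)|
      * |(q * z - γ) - round (q * z - γ)| < ε := by
  rw [frequently_atTop]
  intro a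
  obtain ⟨k, hk, hpq⟩ := h (a + 1)
  obtain ⟨l, hl⟩ : ∃ l, k = l + 1 := ⟨k - 1, by omega⟩
  rw [hl] at hpq
  have hpq0 : (0 : ℝ) < pq α (l + 1) := lt_trans (by positivity) hpq
  refine ⟨(den α (l + 1)).toNat, ?_, ?_⟩
  · have h1 := (le_den hα l).1
    omega
  · have h1 := den_round hα (l + 1)
    have h2 := den_mul_th hα (l + 1)
    have h3 : (pq α (l + 1) : ℝ) * den α (l + 1) ≤ den α (l + 1 + 1) := by
      have : pq α (l + 1) * den α (l + 1) ≤ den α (l + 1 + 1) := by
        change _ ≤ pq α (l + 1) * den α (l + 1) + den α l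
        have := den_nonneg hα l
        linarith
      exact_mod_cast this
    have h4 : (pq α (l + 1) : ℝ) * ((den α (l + 1) : ℝ) * |th α (l + 1)|) ≤ 1 := by
      calc _ = (pq α (l + 1) : ℝ) * den α (l + 1) * |th α (l + 1)| := by ring
        _ ≤ den α (l + 1 + 1) * |th α (l + 1)| := mul_le_mul_of_nonneg_right h3 (abs_nonneg _)
        _ ≤ 1 := h2
    have h5 : (den α (l + 1) : ℝ) * |th α (l + 1)| ≤ 1 / pq α (l + 1) := by
      rw [le_div_iff₀ hpq0]; linarith
    have h6 : 1 / (pq α (l + 1) : ℝ) < ε := by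
      rw [div_lt_iff₀ hpq0]
      rw [div_lt_iff₀ hε] at hpq
      linarith
    set Q : ℕ := (den α (l + 1)).toNat with hQ
    have h7 := abs_sub_round ((Q : ℝ) * z - γ)
    have h8 : |((Q : ℝ) * z - γ) - round ((Q : ℝ) * z - γ)| ≤ 1 := by linarith
    set X := (Q : ℝ) * |(Q : ℝ) * α - round ((Q : ℝ) * α)| with hX
    have hX0 : 0 ≤ X := by positivity
    calc X * |((Q : ℝ) * z - γ) - round ((Q : ℝ) * z - γ)|
        ≤ X * 1 := mul_le_mul_of_nonneg_left h8 hX0
      _ < ε := by linarith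

lemma exists_eig {t : ℤ} (ht : 3 ≤ t) : ∃ lam, Eig t lam := by
  have h3 : (3 : ℝ) ≤ t := by exact_mod_cast ht
  have h4 : (0 : ℝ) ≤ (t : ℝ) ^ 2 - 4 := by nlinarith
  refine ⟨(t + Real.sqrt (t ^ 2 - 4)) / 2, ht, ?_, ?_⟩
  · have := Real.sqrt_nonneg ((t : ℝ) ^ 2 - 4)
    linarith
  · have := Real.sq_sqrt h4
    linear_combination (1 / 4) * this

/-- choice of the trace -/
lemma exists_t {p : ℕ} (hp : 1 ≤ p) {α : ℝ} (hα : Irrational α) (hrun : LongRuns p α) {B : ℤ}
    {k₀ : ℕ} (hB : ∀ k, k₀ ≤ k → pq α k ≤ B) (β : ℝ) :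
    ∃ t ∈ Finset.Icc (3 : ℤ) ((B + 1) ^ (2 * p) + 1),
        (RT p α t).NeBot ∧ (¬ Resonant p α β → ¬ Reso (RT p α t) (qq α) β) := by
  have hS := tr_bound hp hα hB
  have hne := neBotRR hrun
  by_cases hres : Resonant p α β
  · obtain ⟨t, ht, hneT⟩ : ∃ t ∈ Finset.Icc (3 : ℤ) ((B + 1) ^ (2 * p) + 1),
        (RT p α t).NeBot := by
      by_contra hcon
      push Not at hcon
      have h1 : ∀ᶠ k in RR p α, ∀ t ∈ Finset.Icc (3 : ℤ) ((B + 1) ^ (2 * p) + 1),
          tr p α k = t → False := by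
        rw [Filter.eventually_all_finset]
        intro t ht
        have h2 : RT p α t = ⊥ := hcon t ht
        rw [RT] at h2
        have h3 : ∀ᶠ _k in RR p α ⊓ 𝓟 {k | tr p α k = t}, False := by
          rw [h2]; exact eventually_bot
        rwa [eventually_inf_principal] at h3
      obtain ⟨k, hk1, hk2⟩ := (h1.and hS).exists
      exact hk1 _ hk2 rfl
    exact ⟨t, ht, hneT, fun h => absurd hres h⟩
  · by_contra hcon
    push Not at hcon
    refine hres (resonant_of hα hS fun t ht => ?_)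
    by_cases hneT : (RT p α t).NeBot
    · exact (hcon t ht hneT).2
    · rw [not_neBot] at hneT
      exact ⟨1, one_pos, by rw [hneT]; exact tendsto_bot⟩

open Classical in
/-- the uniform density statement for long periodic runs -/
theorem uniform_cf {b : ℕ} (hb : 2 ≤ b) {p : ℕ} (hp : 1 ≤ p) {ε δ : ℝ} (hε : 0 < ε) (hδ : 0 < δ) :
    ∃ N₀ : ℕ, ∀ α : ℝ, Irrational α → LongRuns p α → ∀ β : ℝ, ∀ N ≥ N₀, ∀ T : ℕ,
      (((Finset.range N).filter (fun i : ℕ =>
        ¬ ∀ γ : ℝ, (γ = 0 ∨ ¬ Resonant p α β) →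
          ∃ᶠ q : ℕ in atTop, (q : ℝ) * |q * α - round (q * α)|
            * |(q * ((b : ℝ) ^ (T + i) * β) - γ) - round (q * ((b : ℝ) ^ (T + i) * β) - γ)| < ε)).card
              : ℝ) ≤ δ * N := by
  set B : ℤ := ⌊1 / ε⌋ with hB
  have hex : ∀ t : ℤ, ∃ N₀ : ℕ, 3 ≤ t →
      ∀ (α : ℝ) (F : Filter ℕ) (s s' q : ℕ → ℕ), F.NeBot → Dat t 1 α F s s' q →
      ∀ β : ℝ, ∀ N ≥ N₀, ∀ T : ℕ,
      (((Finset.range N).filter (fun i : ℕ =>
        ¬ ∀ γ : ℝ, (γ = 0 ∨ ¬ Reso F q β) → ∃ᶠ q : ℕ in atTop, (q : ℝ) * |q * α - round (q * α)|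
            * |(q * ((b : ℝ) ^ (T + i) * β) - γ) - round (q * ((b : ℝ) ^ (T + i) * β) - γ)| < ε)).card
              : ℝ) ≤ δ * N := by
    intro t
    by_cases ht : 3 ≤ t
    · obtain ⟨lam, E⟩ := exists_eig ht
      obtain ⟨N₀, h⟩ := uniform E (C := 1) zero_le_one hb hε hδ
      exact ⟨N₀, fun _ => h⟩
    · exact ⟨0, fun h => absurd h ht⟩
  choose M hM using hex
  refine ⟨(Finset.Icc (3 : ℤ) ((B + 1) ^ (2 * p) + 1)).sup M, fun α hα hrun β N hN T => ?_⟩
  by_cases hbd : ∀ k₀ : ℕ, ∃ k, k₀ ≤ k ∧ 1 / ε < pq α k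
  · have hempty : ((Finset.range N).filter (fun i : ℕ =>
        ¬ ∀ γ : ℝ, (γ = 0 ∨ ¬ Resonant p α β) →
          ∃ᶠ q : ℕ in atTop, (q : ℝ) * |q * α - round (q * α)|
            * |(q * ((b : ℝ) ^ (T + i) * β) - γ) - round (q * ((b : ℝ) ^ (T + i) * β) - γ)| < ε)) = ∅ := by
      rw [Finset.filter_eq_empty_iff]
      intro i _ hcon
      exact hcon fun γ _ => trivial_case hα hε hbd _ _
    rw [hempty]
    simp only [Finset.card_empty, Nat.cast_zero]
    positivity
  · push Not at hbd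
    obtain ⟨k₀, hk₀⟩ := hbd
    have hB' : ∀ k, k₀ ≤ k → pq α k ≤ B := fun k hk => by
      rw [hB, Int.le_floor]; exact hk₀ k hk
    obtain ⟨t, ht, hneT, himp⟩ := exists_t hp hα hrun hB' β
    rw [Finset.mem_Icc] at ht
    have h1 := hM t ht.1 α (RT p α t) _ _ (qq α) hneT (dat hα t) β N
      ((Finset.le_sup (f := M) (Finset.mem_Icc.2 ht)).trans hN) T
    refine le_trans ?_ h1
    have hsub : ((Finset.range N).filter (fun i : ℕ =>
        ¬ ∀ γ : ℝ, (γ = 0 ∨ ¬ Resonant p α β) →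
          ∃ᶠ q : ℕ in atTop, (q : ℝ) * |q * α - round (q * α)|
            * |(q * ((b : ℝ) ^ (T + i) * β) - γ) - round (q * ((b : ℝ) ^ (T + i) * β) - γ)| < ε)) ⊆
        ((Finset.range N).filter (fun i : ℕ =>
        ¬ ∀ γ : ℝ, (γ = 0 ∨ ¬ Reso (RT p α t) (qq α) β) →
          ∃ᶠ q : ℕ in atTop, (q : ℝ) * |q * α - round (q * α)|
            * |(q * ((b : ℝ) ^ (T + i) * β) - γ) - round (q * ((b : ℝ) ^ (T + i) * β) - γ)| < ε)) := by
      intro i hi
      rw [Finset.mem_filter] at hi ⊢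
      refine ⟨hi.1, fun hall => hi.2 fun γ hγ => hall γ ?_⟩
      exact hγ.imp id himp
    exact_mod_cast Finset.card_le_card hsub

end Pool.Agent.K6.H59.PR
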