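import Mathlib
import Pool.Agent.K6.H59.PR.CF
import Pool.Agent.H705R2.Recur

/-! # The almost sure version -/

set_option autoImplicit false

open MeasureTheory Filter Topology Set TopologicalSpace

namespace Pool.Agent.K6.H59.PR

open Pool.Agent.W765.Hb Pool.Agent.H705R2 Pool.Agent.H380R2.LC

/-- resonance on the circle -/
def ResoC (F : Filter ℕ) (q : ℕ → ℕ) (x : Circ) : Prop :=
  ∃ d : ℕ, 0 < d ∧ Tendsto (fun p => ‖d • q p • x‖) F (𝓝 0)

lemma coe_mul' (d q : ℕ) (β : ℝ) : ((d * (q * β) : ℝ) : Circ) = d • q • (β : Circ) := by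
  rw [← AddCircle.coe_nsmul, ← AddCircle.coe_nsmul]
  congr 1
  simp only [nsmul_eq_mul]

lemma resoC_iff (F : Filter ℕ) (q : ℕ → ℕ) (β : ℝ) : ResoC F q (β : Circ) ↔ Reso F q β := by
  unfold ResoC Reso
  simp only [coe_mul']

/-- the almost sure version for one open set -/
theorem ae_one {t : ℤ} {lam : ℝ} (E : Eig t lam) {C α : ℝ} {F : Filter ℕ}
    [F.IsCountablyGenerated] {s s' : ℕ → ℕ} {q : ℕ → ℕ} (D : Dat t C α F s s' q) {b : ℕ}
    (hb : 2 ≤ b) {μ : Measure Circ} [IsProbabilityMeasure μ]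
    (hμ : MeasurePreserving (fun x : Circ => b • x) μ μ) (K : ℕ) (u : Circ) :
    ∀ᵐ x ∂μ, ResoC F q x ∨ ∃ᶠ p in F, ‖q p • x - u‖ < 1 / ((K : ℝ) + 1) := by
  classical
  have hiter : ∀ (j : ℕ) (y : Circ), (fun x : Circ => b • x)^[j] y = b ^ j • y := by
    intro j y
    induction j with
    | zero => simp
    | succ j ih => rw [Function.iterate_succ_apply', ih, pow_succ', mul_smul]
  have hm1 : MeasurableSet {y | ResoC F q y} := by
    have : {y | ResoC F q y} = ⋃ d : ℕ, {y | 0 < d ∧ Tendsto (fun p => ‖d • q p • y‖) F (𝓝 0)} := by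
      ext y; simp [ResoC]
    rw [this]
    refine MeasurableSet.iUnion fun d => ?_
    by_cases hd : 0 < d
    · simp only [hd, true_and]
      refine measurableSet_tendsto _ fun m => ?_
      exact ((continuous_nsmul d).comp (continuous_nsmul (q m))).norm.measurable
    · simp [hd]
  have hm2 : MeasurableSet {y : Circ | ∃ᶠ p in F, ‖q p • y - u‖ < 1 / ((K : ℝ) + 1)} := by
    obtain ⟨A, hA⟩ := F.exists_antitone_basis
    have : {y : Circ | ∃ᶠ p in F, ‖q p • y - u‖ < 1 / ((K : ℝ) + 1)} =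
        ⋂ n : ℕ, ⋃ m : ℕ, {y : Circ | m ∈ A n ∧ ‖q m • y - u‖ < 1 / ((K : ℝ) + 1)} := by
      ext y
      simp only [mem_ofPred_eq, mem_iInter, mem_iUnion]
      rw [hA.1.frequently_iff]
      simp
    rw [this]
    refine MeasurableSet.iInter fun n => MeasurableSet.iUnion fun m => ?_
    by_cases hnm : m ∈ A n
    · simp only [hnm, true_and]
      exact (isOpen_lt (((continuous_nsmul (q m)).sub continuous_const).norm)
        continuous_const).measurableSet
    · simp [hnm]
  set Bd : Set Circ := {y | ResoC F q y}ᶜ ∩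
    {y : Circ | ∃ᶠ p in F, ‖q p • y - u‖ < 1 / ((K : ℝ) + 1)}ᶜ with hBd
  have hBm : MeasurableSet Bd := hm1.compl.inter hm2.compl
  have hnull : μ Bd = 0 := by
    refine recur hμ hBm ?_
    rintro y -
    obtain ⟨β, rfl⟩ := QuotientAddGroup.mk_surjective y
    obtain ⟨Z, hZ⟩ : ∃ Z : Set ℕ, Z = {m : ℕ | (fun x : Circ => b • x)^[m] (β : Circ) ∈ Bd} := ⟨_, rfl⟩
    have hZB : ∀ m, m ∈ Z → b ^ m • (β : Circ) ∈ Bd := fun m hm => by
      rw [hZ] at hm
      have : (fun x : Circ => b • x)^[m] (β : Circ) ∈ Bd := hm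
      rwa [hiter] at this
    change DensityZero {m : ℕ | (fun x : Circ => b • x)^[m] (β : Circ) ∈ Bd}
    rw [← hZ]
    unfold DensityZero
    rw [Metric.tendsto_atTop]
    intro ε hε
    obtain ⟨M, hM⟩ := uniform_infinite torT2 (hyperb E) hb (theta E hb) (isOpen_US K u)
      (US_nonempty K u) (δ := ε / 2) (by positivity)
    refine ⟨max M 1, fun n hn => ?_⟩
    have hnM : M ≤ n := (le_max_left _ _).trans hn
    have hn1 : 1 ≤ n := (le_max_right _ _).trans hn
    rw [Real.dist_eq, sub_zero, abs_of_nonneg (by positivity), natCard_eq]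
    have hnR : (0 : ℝ) < n := by exact_mod_cast hn1
    rw [div_lt_iff₀ hnR]
    by_cases hres : Reso F q β
    · have hempty : (Finset.range n).filter (· ∈ Z) = ∅ := by
        rw [Finset.filter_eq_empty_iff]
        intro j _ hj
        refine (hZB j hj).1 ?_
        obtain ⟨d, hd, hlim⟩ := (resoC_iff F q β).2 hres
        refine ⟨d, hd, ?_⟩
        have h2 : Tendsto (fun p => ((b ^ j : ℕ) : ℝ) * ‖d • q p • (β : Circ)‖) F (𝓝 0) := by
          simpa using hlim.const_mul ((b ^ j : ℕ) : ℝ)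
        refine squeeze_zero (fun p => norm_nonneg _) (fun p => ?_) h2
        have h3 : d • q p • (b ^ j • (β : Circ)) = b ^ j • (d • q p • (β : Circ)) := by
          rw [smul_comm (q p) (b ^ j), smul_comm d (b ^ j)]
        rw [h3]
        exact norm_nsmul_le
      rw [hempty]
      simp only [Finset.card_empty, Nat.cast_zero]
      positivity
    · have hinf : (KK F s q β).Infinite := fun hfin => hres (D.reso_of_finite E β hfin)
      have h2 := hM (KK F s q β) (isClosed_KK F s q β) (fun z hz => D.inv_K β hz)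
        (fun z hz => D.inv_K_symm β hz) hinf 0 n hnM
      have hsub : (Finset.range n).filter (· ∈ Z) ⊆ (Finset.range n).filter
          (fun i => ∀ x ∈ KK F s q β, b ^ (0 + i) • x ∉ US K u) := by
        intro j hj
        rw [Finset.mem_filter] at hj ⊢
        refine ⟨hj.1, fun x hx hxU => (hZB j hj.2).2 ?_⟩
        refine (frequently_of_K hx (isOpen_US K u) (continuous_nsmul (b ^ (0 + j))) hxU).mono
          fun p hp => ?_
        simp only [US, mem_ofPred_eq, Pi.smul_apply, pt, Matrix.cons_val_one,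
          Matrix.cons_val_zero, zero_add] at hp
        have h3 : q p • (b ^ j • (β : Circ)) = b ^ j • ((q p * β : ℝ) : Circ) := by
          rw [smul_comm, ← nsmul_eq_mul, AddCircle.coe_nsmul]
        rw [h3]
        exact hp
      have h3 : (((Finset.range n).filter (· ∈ Z)).card : ℝ) ≤
          (((Finset.range n).filter
            (fun i => ∀ x ∈ KK F s q β, b ^ (0 + i) • x ∉ US K u)).card : ℝ) := by
        exact_mod_cast Finset.card_le_card hsub
      nlinarith
  have : ∀ᵐ y ∂μ, y ∉ Bd := measure_eq_zero_iff_ae_notMem.1 hnull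
  filter_upwards [this] with y hy
  by_contra hcon
  rw [not_or] at hcon
  exact hy ⟨hcon.1, hcon.2⟩

instance (p : ℕ) (α : ℝ) : (RR p α).IsCountablyGenerated := by
  unfold RR
  infer_instance

instance (p : ℕ) (α : ℝ) (t : ℤ) : (RT p α t).IsCountablyGenerated := by
  unfold RT
  infer_instance

/-- the almost sure statement -/
theorem ae_cf {b : ℕ} (hb : 2 ≤ b) {p : ℕ} (hp : 1 ≤ p) {α : ℝ} (hα : Irrational α)
    (hrun : LongRuns p α) {μ : Measure Circ} [IsProbabilityMeasure μ]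
    (hμ : MeasurePreserving (fun x : Circ => b • x) μ μ) :
    ∀ᵐ x ∂μ, ∀ β : ℝ, (β : Circ) = x → ∀ γ : ℝ, (γ = 0 ∨ ¬ Resonant p α β) →
      ∀ ε : ℝ, 0 < ε → ∃ᶠ q : ℕ in atTop, (q : ℝ) * |q * α - round (q * α)|
            * |(q * β - γ) - round (q * β - γ)| < ε := by
  have hall : ∀ᵐ x ∂μ, ∀ t : ℤ, 3 ≤ t → ∀ K : ℕ, ∀ u ∈ {s : Circ | (K + 1) • s = 0},
      ResoC (RT p α t) (qq α) x ∨ ∃ᶠ k in RT p α t, ‖qq α k • x - u‖ < 1 / ((K : ℝ) + 1) := by
    rw [ae_all_iff]
    intro t
    by_cases ht : 3 ≤ t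
    · simp only [ht, forall_const]
      rw [ae_all_iff]
      intro K
      rw [ae_ball_iff (AddCircle.finite_torsion (1 : ℝ) (Nat.succ_pos K)).countable]
      intro u _
      obtain ⟨lam, E⟩ := exists_eig ht
      exact ae_one E (dat hα t) hb hμ K u
    · simp [ht]
  filter_upwards [hall] with x hx β hβ γ hγ ε hε
  by_cases hbd : ∀ k₀ : ℕ, ∃ k, k₀ ≤ k ∧ 1 / ε < pq α k
  · exact trivial_case hα hε hbd _ _
  push Not at hbd
  obtain ⟨k₀, hk₀⟩ := hbd
  have hB' : ∀ k, k₀ ≤ k → pq α k ≤ ⌊1 / ε⌋ := fun k hk => by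
    rw [Int.le_floor]; exact hk₀ k hk
  obtain ⟨t, ht, hneT, himp⟩ := exists_t hp hα hrun hB' β
  have ht3 : 3 ≤ t := (Finset.mem_Icc.1 ht).1
  have D := dat (p := p) hα t
  obtain ⟨K, hK⟩ := exists_K (C := 1) zero_le_one hε
  by_cases hres : Reso (RT p α t) (qq α) β
  · rcases hγ with rfl | hγ
    · have := D.of_reso zero_le_one hε hres 1
      simpa using this
    · exact absurd hres (himp hγ)
  · obtain ⟨u, hu, hdu⟩ := circ_near (Nat.succ_pos K) (γ : Circ)
    have h1 := (hx t ht3 K u hu).resolve_left fun h => hres (by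
      rw [← hβ] at h
      exact (resoC_iff _ _ _).1 h)
    refine D.freq zero_le_one one_pos (η := 2 / ((K : ℝ) + 1)) (by simpa using hK) ?_
    refine h1.mono fun k hk => ?_
    rw [← hβ] at hk
    have e1 : ((((1 : ℕ) : ℝ) * (qq α k * β) - γ : ℝ) : Circ) =
        (qq α k • (β : Circ) - u) + (u - (γ : Circ)) := by
      rw [AddCircle.coe_sub, sub_add_sub_cancel, coe_mul', one_smul]
    rw [e1]
    rw [dist_comm, dist_eq_norm] at hdu
    push_cast at hdu
    calc _ ≤ ‖qq α k • (β : Circ) - u‖ + ‖u - (γ : Circ)‖ := norm_add_le _ _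
      _ < 1 / ((K : ℝ) + 1) + 1 / ((K : ℝ) + 1) := add_lt_add_of_lt_of_le hk hdu
      _ = 2 / ((K : ℝ) + 1) := by ring

end Pool.Agent.K6.H59.PR
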